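import Pool.Agent.Lib_MP_1209e6_nf.Core
import Pool.Agent.Lib_MP_1209e6_nt.FlowGermE

/-! PIECE FLOWGERMS (helper36, helper17): the points near `p` and the germs of the flows. -/

set_option autoImplicit false

open Filter Topology Pool.Agent.CampanaFlow

namespace Pool.Agent.NF

open Pool.Agent.TubeN Pool.Agent.CampanaB

variable {S : Type} [CommRing S] [Algebra ℂ S] {n : ℕ}

theorem fg_pi_norm {E : Type} [NormedCommRing E] {a : Fin n → E} {r : ℝ} (h : ‖a‖ ≤ r) (i : Fin n) :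
    ‖a i‖ ≤ r := (norm_le_pi_norm a i).trans h

/-- the points near `p` -/
theorem fg_pts [Algebra.FiniteType ℂ S] (t : Fin n → S) (d : Fin n → Derivation ℂ S S)
    (hdt : ∀ i j, d i (t j) = if i = j then 1 else 0) (p : S →ₐ[ℂ] ℂ) (hpt : ∀ i, p (t i) = 0)
    (G : Finset S) (hG : Algebra.adjoin ℂ (G : Set S) = ⊤) :
    ∃ P : Pts S n, P.p = p ∧ P.t = t ∧ P.pt = fun a => ptE d p a := by
  obtain ⟨δ₁, hδ₁, M, L, hL, h1⟩ := ptE_spec d G hG p
  obtain ⟨δ₂, hδ₂, h2⟩ := ptE_ana d G hG p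
  refine ⟨⟨t, p, min δ₁ δ₂, lt_min hδ₁ hδ₂, fun a => ptE d p a, ?_, ?_, ?_, ?_⟩, rfl, rfl, rfl⟩
  · have h3 := ptE_zero (W := ℂ) d G hG p
    rw [ptW_self] at h3
    exact h3
  · intro a ha i
    have h3 := (h1 ℂ a δ₁ le_rfl (fun j => (norm_le_pi_norm a j).trans
      (ha.le.trans (min_le_left _ _)))).1
    rw [ptE_coord hdt h3 i, hpt i, map_zero, zero_add]
  · intro a z ha hz f
    have h3 : ∀ᶠ w in 𝓝 z, ‖a w‖ < min δ₁ δ₂ :=
      (ha.continuousAt.norm).eventually_lt_const hz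
    have h4 := (h3.and ha.eventually_analyticAt)
    obtain ⟨U, hU, hUo, hzU⟩ := eventually_nhds_iff.1 h4
    refine h2 U hUo a (fun i w hw => ?_) (fun w hw i => ?_) f z hzU
    · exact (analyticAt_pi_iff.1 (hU w hw).2) i
    · exact (norm_le_pi_norm (a w) i).trans ((hU w hw).1.le.trans (min_le_right _ _))
  · intro f
    refine ⟨‖p f‖ + L f * δ₁, fun a ha => ?_⟩
    have h3 := (h1 ℂ a δ₁ le_rfl (fun j => (norm_le_pi_norm a j).trans
      (ha.le.trans (min_le_left _ _)))).2.2 f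
    have h5 : algebraMap ℂ ℂ (p f) = p f := rfl
    rw [h5] at h3
    calc ‖ptE d p a f‖ = ‖p f + (ptE d p a f - p f)‖ := by congr 1; ring
      _ ≤ ‖p f‖ + ‖ptE d p a f - p f‖ := norm_add_le _ _
      _ ≤ ‖p f‖ + L f * δ₁ := by linarith

/-- The points near `p` (chain of the flows of the `d i` during the times `a i`) and the germs of the flows of
the `D j`; `P.pt a (t i) = a i` because `d i (t j)` is `1` or `0`; the flow of a point near `p` is the point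
with the same coordinates by `hunr` (`k3/HomEq hom_eq`). -/
theorem flow_germs [Algebra.FiniteType ℂ S] {m : ℕ} (t : Fin n → S) (d : Fin n → Derivation ℂ S S)
    (hdt : ∀ i j, d i (t j) = if i = j then 1 else 0) (p : S →ₐ[ℂ] ℂ) (hpt : ∀ i, p (t i) = 0)
    (hunr : ∀ f : S, ∃ h : S, p h ≠ 0 ∧ h * (f - algebraMap ℂ S (p f)) ∈
      Ideal.span (Set.range fun l => t l - algebraMap ℂ S (p (t l))))
    (D : Fin m → Derivation ℂ S S) :
    ∃ (P : Pts S n) (δ L : ℝ) (G : Fin m → Germ n δ L), P.p = p ∧ P.t = t ∧ 0 < δ ∧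
      ∀ (j : Fin m) (a : Fin n → ℂ) (s : ℂ), ‖a‖ ≤ δ → ‖s‖ ≤ δ → ‖a + (G j).g ℂ a s‖ < P.δ ∧
        IsFlow (D j) (P.pt a) s (P.pt (a + (G j).g ℂ a s)) := by
  obtain ⟨G, hG⟩ := (inferInstance : Algebra.FiniteType ℂ S).out
  obtain ⟨P, hPp, hPt, hPpt⟩ := fg_pts t d hdt p hpt G hG
  choose δ₀ hδ₀ L₀ hL₀ H using fun j => flowGerm_spec d t hdt (D j) G hG p hunr
  -- common constants
  obtain ⟨L, hL0, hL⟩ : ∃ L : ℝ, 0 ≤ L ∧ ∀ j, L₀ j ≤ L := by
    refine ⟨∑ j, L₀ j, Finset.sum_nonneg fun j _ => hL₀ j, fun j => ?_⟩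
    exact Finset.single_le_sum (f := L₀) (fun j _ => hL₀ j) (Finset.mem_univ j)
  obtain ⟨δ₁, hδ₁, hδ₁'⟩ : ∃ δ₁ : ℝ, 0 < δ₁ ∧ ∀ j, δ₁ ≤ δ₀ j := by
    rcases isEmpty_or_nonempty (Fin m) with h | h
    · exact ⟨1, one_pos, fun j => (h.false j).elim⟩
    · obtain ⟨j₀, hj₀⟩ := Finite.exists_min δ₀
      exact ⟨δ₀ j₀, hδ₀ j₀, hj₀⟩
  obtain ⟨δ, hδ⟩ : ∃ δ : ℝ, δ = min δ₁ (P.δ / (2 * (1 + L))) := ⟨_, rfl⟩
  have hδpos : 0 < δ := by
    rw [hδ]
    have := P.pos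
    positivity
  have hδ1 : ∀ j, δ ≤ δ₀ j := fun j => by
    rw [hδ]; exact (min_le_left _ _).trans (hδ₁' j)
  have hδ2 : (1 + L) * δ < P.δ := by
    have h1 : δ ≤ P.δ / (2 * (1 + L)) := by rw [hδ]; exact min_le_right _ _
    rw [le_div_iff₀ (by positivity)] at h1
    have := P.pos
    nlinarith
  let Gm : Fin m → Germ n δ L := fun j =>
    { g := fun E _ _ _ _ a s => flowGerm d t (D j) p a s
      bd := by
        intro E _ _ _ _ a s ha hs
        rw [pi_norm_le_iff_of_nonneg (mul_nonneg hL0 (norm_nonneg _))]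
        intro i
        exact ((H j E a s (fun i => (fg_pi_norm ha i).trans (hδ1 j)) (hs.trans (hδ1 j))).2.2.1 i).trans
          (mul_le_mul_of_nonneg_right (hL j) (norm_nonneg _))
      nat := by
        intro E E' _ _ _ _ _ _ _ _ φ hφ a s ha hs i
        obtain ⟨h1, h2, -, -⟩ := H j E a s (fun i => (fg_pi_norm ha i).trans (hδ1 j))
          (hs.trans (hδ1 j))
        exact (flowGerm_map φ hφ h1 h2 i).symm }
  refine ⟨P, δ, L, Gm, hPp, hPt, hδpos, ?_⟩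
  intro j a s ha hs
  obtain ⟨h1, h2, h3, h4⟩ := H j ℂ a s (fun i => (fg_pi_norm ha i).trans (hδ1 j))
    (hs.trans (hδ1 j))
  have hg : (Gm j).g ℂ a s = flowGerm d t (D j) p a s := rfl
  have hbd := (Gm j).bd ℂ a s ha hs
  refine ⟨?_, ?_⟩
  · calc ‖a + (Gm j).g ℂ a s‖ ≤ ‖a‖ + ‖(Gm j).g ℂ a s‖ := norm_add_le _ _
      _ ≤ δ + L * δ := add_le_add ha (hbd.trans (mul_le_mul_of_nonneg_left hs hL0))
      _ < P.δ := by linarith
  · rw [hPpt, hg]
    show IsFlow (D j) (ptE d p a) s (ptE d p (a + flowGerm d t (D j) p a s))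
    have h5 : (a + flowGerm d t (D j) p a s) = fun i => a i + flowGerm d t (D j) p a s i := rfl
    rw [h5, h4]
    exact h2.isFlow

end Pool.Agent.NF
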