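import Pool.Agent.Lib_MP_1209e6_nf.Core
import Pool.Agent.Lib_MP_1209e6_kc.U4
import Pool.Agent.Lib_MP_1209e6_nt.FTube
import Pool.Agent.Lib_MP_1209e6_fl.D5

/-! PIECE FLOWTUBE (helper53): the tubes of flows. -/

set_option autoImplicit false

open Filter Topology Pool.Agent.CampanaFlow

namespace Pool.Agent.NF

variable {S : Type} [CommRing S] [Algebra ℂ S] {n : ℕ}

/-- restriction of a flow to a smaller ring -/
theorem isFlow_restrict {S' : Type} [CommRing S'] [Algebra ℂ S'] {D : Derivation ℂ S S}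
    {D' : Derivation ℂ S' S'} {σ : S' →ₐ[ℂ] S} (hσ : ∀ f, D (σ f) = σ (D' f)) {q q' : S →ₐ[ℂ] ℂ}
    {s : ℂ} (h : IsFlow D q s q') : IsFlow D' (q.comp σ) s (q'.comp σ) := by
  have h1 : ∀ f k, tc D' (q.comp σ) f k = tc D q (σ f) k := by
    intro f k
    unfold tc
    rw [TubeN.iterate_restrict hσ]
    rfl
  intro f
  refine ⟨?_, ?_⟩
  · have h2 := (h (σ f)).1
    unfold Conv at h2 ⊢
    refine h2.congr fun k => ?_
    rw [h1]
  · show q' (σ f) = _
    rw [(h (σ f)).2]
    unfold ev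
    exact tsum_congr fun k => by rw [h1]

/-- The flow tube: `flow_onU` for the curve `(P.pt (a z)).comp σ` of points of `S'` (no exceptional points, size
locally bounded by `P.bd`); stability: Taylor coefficients. -/
theorem flow_tube {S' R : Type} [CommRing S'] [Algebra ℂ S'] [CommRing R] [Algebra ℂ R]
    (P : Pts S n) (D : Derivation ℂ S S) (D' : Derivation ℂ S' S') (σ : S' →ₐ[ℂ] S)
    (hσ : ∀ f, D (σ f) = σ (D' f)) (cd : ChartData D') (ρ' : R →ₐ[ℂ] S') {δ L : ℝ}
    (G : Germ n δ L) (hδ : 0 < δ)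
    (hG : ∀ (a : Fin n → ℂ) (s : ℂ), ‖a‖ ≤ δ → ‖s‖ ≤ δ → ‖a + G.g ℂ a s‖ < P.δ ∧
      IsFlow D (P.pt a) s (P.pt (a + G.g ℂ a s))) :
    Tube P (σ.comp ρ') {D} G := by
  have hg0 : ∀ a : Fin n → ℂ, ‖a‖ ≤ δ → G.g ℂ a 0 = 0 := by
    intro a ha
    have h1 := G.bd ℂ a 0 ha (by rw [norm_zero]; exact hδ.le)
    rw [norm_zero, mul_zero] at h1
    exact norm_le_zero_iff.1 h1
  have haP : ∀ a : Fin n → ℂ, ‖a‖ ≤ δ → ‖a‖ < P.δ := by
    intro a ha
    have h1 := (hG a 0 ha (by rw [norm_zero]; exact hδ.le)).1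
    rwa [hg0 a ha, add_zero] at h1
  refine ⟨hδ, fun a t ha ht => (hG a t ha ht).1, ?_, ?_⟩
  · intro U hU hc a τ ha hτ haδ hex
    obtain ⟨z₀, hz₀, hτ₀⟩ := hex
    have hcurve : IsCurve U (fun w => (P.pt (a w)).comp σ) ∅ :=
      ⟨fun z _ => Eventually.of_forall fun w => Set.notMem_empty w,
        fun f z hz _ => P.ana a z (ha z hz) (haP _ (haδ z hz).le) (σ f),
        fun f z hz => (P.ana a z (ha z hz) (haP _ (haδ z hz).le) (σ f)).meromorphicAt⟩
    choose C hC using P.bd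
    obtain ⟨M, hM⟩ : ∃ M : ℝ, ∀ z ∈ U, cd.size ((P.pt (a z)).comp σ) ≤ M := by
      refine ⟨(1 + cd.deg) * ∑ j, ∑ l', ∑ s ∈ (cd.P j l').support, ‖(cd.P j l').coeff s‖ *
        ((∏ b, (C (σ (cd.c b))) ^ s (Sum.inl b)) * ∏ i, (2 : ℝ) ^ s (Sum.inr i)),
        fun z hz => ?_⟩
      unfold ChartData.size
      refine mul_le_mul_of_nonneg_left ?_ (by positivity)
      refine Finset.sum_le_sum fun j _ => Finset.sum_le_sum fun l' _ =>
        Finset.sum_le_sum fun s _ => ?_
      refine mul_le_mul_of_nonneg_left ?_ (norm_nonneg _)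
      refine mul_le_mul_of_nonneg_right ?_ (Finset.prod_nonneg fun _ _ => by positivity)
      refine Finset.prod_le_prod (fun _ _ => by positivity) fun b _ => ?_
      exact pow_le_pow_left₀ (norm_nonneg _) (hC _ _ (haP _ (haδ z hz).le)) _
    obtain ⟨γ, B, h1, h2⟩ := CampanaK.flow_onU cd hU hc hcurve τ hτ (by
        intro z hz
        refine ⟨(‖τ z‖ + 1) * M, ?_⟩
        filter_upwards [(hτ z hz).continuousAt.norm.eventually
          (gt_mem_nhds (by linarith : ‖τ z‖ < ‖τ z‖ + 1)), hU.mem_nhds hz] with w hw1 hw2 _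
        exact mul_le_mul hw1.le (hM w hw2) (cd.size_nonneg _) (by positivity)) hz₀
        (Set.notMem_empty z₀) (by
        filter_upwards [(hτ z₀ hz₀).continuousAt.norm.eventually (gt_mem_nhds hτ₀),
          hU.mem_nhds hz₀] with w hw1 hw2
        exact ⟨_, isFlow_restrict hσ (hG _ _ (haδ w hw2).le hw1.le).2⟩)
    refine ⟨fun w => (γ w).comp ρ', B, TubeN.IsCurve.restrict h1 ρ', fun z hz ht => ?_⟩
    obtain ⟨h3, h4⟩ := h2 z hz (Set.notMem_empty z) _
      (isFlow_restrict hσ (hG _ _ (haδ z hz).le ht.le).2)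
    refine ⟨h3, ?_⟩
    show (γ z).comp ρ' = _
    rw [h4]
    rfl
  · intro E hE c hc f hf
    rw [Set.mem_singleton_iff] at hE
    subst hE
    obtain ⟨r, hr, hball⟩ := Metric.eventually_nhds_iff_ball.1 hf
    have hflow : ∀ w : ℂ, ‖w‖ ≤ δ → IsFlow E (P.pt c) w (P.pt (c + G.g ℂ c w)) :=
      fun w hw => (hG c w hc.le hw).2
    obtain ⟨r', hr', hr'1, hr'2⟩ : ∃ r' : ℝ, 0 < r' ∧ r' < r ∧ r' ≤ δ :=
      ⟨min (r / 2) δ, by positivity, (min_le_left _ _).trans_lt (by linarith), min_le_right _ _⟩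
    have hk : ∀ k : ℕ, ‖((r' / ((k : ℝ) + 1) : ℝ) : ℂ)‖ ≤ r' := by
      intro k
      rw [Complex.norm_real, Real.norm_of_nonneg (by positivity)]
      exact div_le_self hr'.le (by linarith [(Nat.cast_nonneg k : (0 : ℝ) ≤ k)])
    have hzero : ∀ k, tc E (P.pt c) f k = 0 := by
      refine tc_eq_zero (fun k : ℕ => ((r' / ((k : ℝ) + 1) : ℝ) : ℂ)) ?_ ?_ ?_ ?_
      · intro k
        exact_mod_cast (by positivity : r' / ((k : ℝ) + 1) ≠ 0)
      · have h1 : Tendsto (fun k : ℕ => r' / ((k : ℝ) + 1)) atTop (𝓝 0) := by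
          have h3 := (tendsto_one_div_add_atTop_nhds_zero_nat (𝕜 := ℝ)).const_mul r'
          rw [mul_zero] at h3
          refine h3.congr fun k => ?_
          rw [mul_one_div]
        have h4 := (Complex.continuous_ofReal.tendsto 0).comp h1
        rw [Complex.ofReal_zero] at h4
        exact h4
      · intro k
        exact (hflow _ ((hk k).trans hr'2) f).1
      · intro k
        rw [← (hflow _ ((hk k).trans hr'2) f).2]
        exact hball _ (by rw [mem_ball_zero_iff]; exact (hk k).trans_lt hr'1)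
    have hδ' : ∀ᶠ w in 𝓝 (0 : ℂ), ‖w‖ ≤ δ := by
      filter_upwards [Metric.ball_mem_nhds (0 : ℂ) hδ] with w hw
      exact (mem_ball_zero_iff.1 hw).le
    filter_upwards [hδ'] with w hw
    rw [(hflow w hw (E f)).2]
    unfold ev
    have hz : ∀ k, tc E (P.pt c) (E f) k * w ^ k = 0 := by
      intro k
      have h1 := hzero (k + 1)
      unfold tc at h1
      rw [div_eq_zero_iff] at h1
      have h2 : P.pt c (E^[k + 1] f) = 0 := by
        rcases h1 with h1 | h1
        · exact h1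
        · exact absurd h1 (by exact_mod_cast (k + 1).factorial_ne_zero)
      unfold tc
      rw [← Function.iterate_succ_apply, h2, zero_div, zero_mul]
    rw [tsum_congr hz, tsum_zero]

end Pool.Agent.NF
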