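import Pool.Agent.Lib_MP_1209e6_nf.GlueTube
import Pool.Agent.Lib_MP_1209e6_nf.FlowGerms
import Pool.Agent.Lib_MP_1209e6_nf.FlowTube
import Pool.Agent.Lib_MP_1209e6_nt.Setup

/-! ASSEMBLY (helper90): the analytic theorem of line N. -/

set_option autoImplicit false

open Filter Topology Pool.Agent.CampanaFlow Pool.Agent.CampanaNT

namespace Pool.Agent.NF

/-- The analytic theorem: the dense curve. -/
theorem dense_curve {n s : ℕ} (T : TubeSetup n s) :
    ∃ (γ : ℂ → T.R →ₐ[ℂ] ℂ) (B : Set ℂ), IsCurve Set.univ γ B ∧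
      ∀ f : T.R, (∀ z, z ∉ B → γ z f = 0) → f = 0 := by
  have hN : IsNoetherianRing T.S := Algebra.FiniteType.isNoetherianRing ℂ T.S
  have hint : ∀ f : T.S, ∃ F : Polynomial T.R, F.Monic ∧ F.eval₂ (T.rho : T.R →+* T.S) f = 0 :=
    fun f => T.int f
  obtain ⟨P, δ, L', G, hPp, -, hδ, hG⟩ := flow_germs
    (fun i => T.rho (T.y i) - algebraMap ℂ T.S (T.p (T.rho (T.y i)))) T.del
    (by
      intro i j
      rw [map_sub, Derivation.map_algebraMap, sub_zero]
      exact T.del_y i j) T.p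
    (by intro i; simp) (by
      intro f
      obtain ⟨h, h1, h2⟩ := T.unram f
      refine ⟨h, h1, ?_⟩
      have h3 : ∀ l, T.rho (T.y l) - algebraMap ℂ T.S (T.p (T.rho (T.y l))) -
          algebraMap ℂ T.S (T.p (T.rho (T.y l) - algebraMap ℂ T.S (T.p (T.rho (T.y l))))) =
          T.rho (T.y l) - algebraMap ℂ T.S (T.p (T.rho (T.y l))) := by
        intro l; simp
      simp only [h3]
      exact h2) T.e
  have htube : ∀ a, ∃ (δ L : ℝ) (G : Germ n δ L), Tube P T.rho {T.e a} G := by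
    intro a
    refine ⟨δ, L', G a, ?_⟩
    have h2 : T.rho = (T.sig a).comp (T.rhoL a) := by
      apply AlgHom.ext; intro f; exact (T.comp a f).symm
    rw [h2]
    exact flow_tube P (T.e a) (T.d a) (T.sig a) (fun f => (T.sig_d a f).symm) (T.cd a) (T.rhoL a)
      (G a) hδ (hG a)
  obtain ⟨δ₁, L₁, G₁, hT⟩ := all_tube P T.rho hint T.e htube
  exact dense_of_tube P T.rho T.rho_inj T.e hT (by rw [hPp]; exact T.general)

end Pool.Agent.NF
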