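import Pool.Agent.Lib_MP_1209e6_nf.Core
import Pool.Agent.Lib_MP_1209e6_nt.NatAna

/-! PIECE ANA: germs are holomorphic along holomorphic curves. -/

set_option autoImplicit false

open Filter Topology

namespace Pool.Agent.NF

/-- Naturality with the disc algebra (`analyticAt_of_natural` of helper53). -/
theorem Germ.ana {n : ℕ} {δ L : ℝ} (G : Germ n δ L) (a : ℂ → Fin n → ℂ) (τ : ℂ → ℂ) (z : ℂ)
    (ha : AnalyticAt ℂ a z) (hτ : AnalyticAt ℂ τ z) (h1 : ‖a z‖ < δ) (h2 : ‖τ z‖ < δ) :
    AnalyticAt ℂ (fun w => G.g ℂ (a w) (τ w)) z := by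
  have hδ : 0 < δ := (norm_nonneg _).trans_lt h1
  rw [analyticAt_pi_iff] at ha ⊢
  intro i
  have ha' : ∀ᶠ w in 𝓝 z, ‖a w‖ < δ := by
    have hc : ContinuousAt a z := continuousAt_pi.2 fun i => (ha i).continuousAt
    exact hc.norm.eventually_lt_const h1
  have hτ' : ∀ᶠ w in 𝓝 z, ‖τ w‖ < δ := hτ.continuousAt.norm.eventually_lt_const h2
  have := Pool.Agent.TubeN.analyticAt_of_natural (ι := Option (Fin n))
    (fun E _ _ _ _ b => G.g E (fun j => b (some j)) (b none) i) (fun _ => δ)
    (fun E _ _ _ _ φ hφ b hb => by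
      exact G.nat E ℂ φ hφ (fun j => b (some j)) (b none)
        ((pi_norm_le_iff_of_nonneg hδ.le).2 fun j => hb (some j)) (hb none) i)
    (z₀ := z) (a := fun o w => o.elim (τ w) fun j => a w j)
    (fun o => by cases o with
      | none => exact hτ
      | some j => exact ha j)
    (fun o => by cases o with
      | none => exact hτ'.mono fun w hw => hw.le
      | some j => exact ha'.mono fun w hw => (norm_le_pi_norm (a w) j).trans hw.le)
  exact this

end Pool.Agent.NF
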