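import Pool.Agent.Lib_MP_1209e6_fl.Defs

/-!
# MP_1209e6_ag, line N-F: germs (functors on Banach algebras) and tubes

Board note 2910 (helper90).
-/

set_option autoImplicit false

open Filter Topology Pool.Agent.CampanaFlow

namespace Pool.Agent.NF

/-- A germ of radius `δ` with constant `L`: for every commutative Banach algebra `E` a map
`(a, t) ↦ g (a, t)`, natural for contractive homomorphisms, with `‖g (a, t)‖ ≤ L ‖t‖`. -/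
structure Germ (n : ℕ) (δ L : ℝ) where
  g : ∀ (E : Type) [NormedCommRing E] [NormedAlgebra ℂ E] [CompleteSpace E] [NormOneClass E],
    (Fin n → E) → E → Fin n → E
  bd : ∀ (E : Type) [NormedCommRing E] [NormedAlgebra ℂ E] [CompleteSpace E] [NormOneClass E]
    (a : Fin n → E) (t : E), ‖a‖ ≤ δ → ‖t‖ ≤ δ → ‖g E a t‖ ≤ L * ‖t‖
  nat : ∀ (E E' : Type) [NormedCommRing E] [NormedAlgebra ℂ E] [CompleteSpace E] [NormOneClass E]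
    [NormedCommRing E'] [NormedAlgebra ℂ E'] [CompleteSpace E'] [NormOneClass E']
    (φ : E →ₐ[ℂ] E'), (∀ x, ‖φ x‖ ≤ ‖x‖) → ∀ (a : Fin n → E) (t : E), ‖a‖ ≤ δ → ‖t‖ ≤ δ →
    ∀ i, φ (g E a t i) = g E' (fun j => φ (a j)) (φ t) i

/-- smaller radius, larger constant -/
def Germ.restrict {n : ℕ} {δ L δ' L' : ℝ} (G : Germ n δ L) (hδ : δ' ≤ δ) (hL : L ≤ L') :
    Germ n δ' L' where
  g := G.g
  bd := fun E _ _ _ _ a t ha ht => (G.bd E a t (ha.trans hδ) (ht.trans hδ)).trans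
    (mul_le_mul_of_nonneg_right hL (norm_nonneg t))
  nat := fun E E' _ _ _ _ _ _ _ _ φ hφ a t ha ht => G.nat E E' φ hφ a t (ha.trans hδ) (ht.trans hδ)

/-- The points of `S` near `p`, parametrised by their coordinates `t`. -/
structure Pts (S : Type) [CommRing S] [Algebra ℂ S] (n : ℕ) where
  t : Fin n → S
  p : S →ₐ[ℂ] ℂ
  δ : ℝ
  pos : 0 < δ
  pt : (Fin n → ℂ) → S →ₐ[ℂ] ℂ
  pt_zero : pt 0 = p
  pt_t : ∀ a, ‖a‖ < δ → ∀ i, pt a (t i) = a i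
  ana : ∀ (a : ℂ → Fin n → ℂ) (z : ℂ), AnalyticAt ℂ a z → ‖a z‖ < δ → ∀ f : S,
    AnalyticAt ℂ (fun w => pt (a w) f) z
  bd : ∀ f : S, ∃ C : ℝ, ∀ a, ‖a‖ < δ → ‖pt a f‖ ≤ C

section

variable {S R : Type} [CommRing S] [Algebra ℂ S] [CommRing R] [Algebra ℂ R] {n : ℕ}

/-- (GLOB) the tube extends to curves of points of `R` along every holomorphic `(a, τ)` over a connected
open set which contains a point where the time is small. -/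
def Glob (P : Pts S n) (ρ : R →ₐ[ℂ] S) (δ : ℝ) (g : (Fin n → ℂ) → ℂ → Fin n → ℂ) : Prop :=
  ∀ U : Set ℂ, IsOpen U → IsPreconnected U → ∀ (a : ℂ → Fin n → ℂ) (τ : ℂ → ℂ),
    (∀ z ∈ U, AnalyticAt ℂ a z) → (∀ z ∈ U, AnalyticAt ℂ τ z) → (∀ z ∈ U, ‖a z‖ < δ) →
    (∃ z ∈ U, ‖τ z‖ < δ) →
    ∃ (γ : ℂ → R →ₐ[ℂ] ℂ) (B : Set ℂ), IsCurve U γ B ∧
      ∀ z ∈ U, ‖τ z‖ < δ → z ∉ B ∧ γ z = (P.pt (a z + g (a z) (τ z))).comp ρ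

/-- A tube whose ideals are stable under the derivations in `Ds`. -/
structure Tube (P : Pts S n) (ρ : R →ₐ[ℂ] S) (Ds : Set (Derivation ℂ S S)) {δ L : ℝ}
    (G : Germ n δ L) : Prop where
  pos : 0 < δ
  small : ∀ (a : Fin n → ℂ) (t : ℂ), ‖a‖ ≤ δ → ‖t‖ ≤ δ → ‖a + G.g ℂ a t‖ < P.δ
  glob : Glob P ρ δ (G.g ℂ)
  stab : ∀ D ∈ Ds, ∀ c : Fin n → ℂ, ‖c‖ < δ → ∀ f : S,
    (∀ᶠ w in 𝓝 (0 : ℂ), P.pt (c + G.g ℂ c w) f = 0) →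
    ∀ᶠ w in 𝓝 (0 : ℂ), P.pt (c + G.g ℂ c w) (D f) = 0

end

/-- the explicit times: `τ₁ (ζ) = tm η ζ`, `τ₂ (ζ) = tm η (1 / ζ)` -/
noncomputable def tm (η : ℝ) (x : ℂ) : ℂ := η * (Complex.exp x - Complex.exp 1)

/-- The solution of the gluing problem for `G₁`, `G₂` (complex values): `A c v` is the value of `a_c` at
`ζ = 1 / v`, `B c u` is the value of `b_c` at `ζ = u`; `G` is the germ of the glued tube. -/
structure Glued {n : ℕ} {δ L : ℝ} (G₁ G₂ : Germ n δ L) {δ' L' : ℝ} (G : Germ n δ' L') where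
  η : ℝ
  η_pos : 0 < η
  δ'_le : δ' ≤ 1 / 2
  tm_lt : ∀ x : ℂ, ‖x‖ < 2 → ‖tm η x‖ < δ
  A : (Fin n → ℂ) → ℂ → Fin n → ℂ
  B : (Fin n → ℂ) → ℂ → Fin n → ℂ
  A_lt : ∀ c v, ‖c‖ ≤ δ' → ‖v‖ < 2 → ‖A c v‖ < δ
  B_lt : ∀ c u, ‖c‖ ≤ δ' → ‖u‖ < 2 → ‖B c u‖ < δ
  A_ana : ∀ (c : ℂ → Fin n → ℂ) (v : ℂ → ℂ) (z : ℂ), AnalyticAt ℂ c z → AnalyticAt ℂ v z →
    ‖c z‖ < δ' → ‖v z‖ < 2 → AnalyticAt ℂ (fun w => A (c w) (v w)) z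
  B_ana : ∀ (c : ℂ → Fin n → ℂ) (v : ℂ → ℂ) (z : ℂ), AnalyticAt ℂ c z → AnalyticAt ℂ v z →
    ‖c z‖ < δ' → ‖v z‖ < 2 → AnalyticAt ℂ (fun w => B (c w) (v w)) z
  agree : ∀ c u v, ‖c‖ ≤ δ' → ‖u‖ < 2 → ‖v‖ < 2 → u * v = 1 →
    A c v + G₁.g ℂ (A c v) (tm η u) = B c u + G₂.g ℂ (B c u) (tm η v)
  new : ∀ c w, ‖c‖ ≤ δ' → ‖w‖ ≤ δ' →
    c + G.g ℂ c w = A c (Complex.exp (-w)) + G₁.g ℂ (A c (Complex.exp (-w))) (tm η (Complex.exp w))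

end Pool.Agent.NF
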