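import Pool.Agent.Lib_MP_1209e6_nf.Core
import Pool.Agent.Lib_MP_1209e6_nt.GlobTop

/-! PIECE GLOB (helper34): the glued tube is global. -/

set_option autoImplicit false

open Filter Topology Pool.Agent.CampanaFlow

namespace Pool.Agent.NF

variable {S R : Type} [CommRing S] [Algebra ℂ S] [CommRing R] [Algebra ℂ R] {n : ℕ}

theorem norm_exp_lt_two {x : ℂ} (h : x.re < Real.log 2) : ‖Complex.exp x‖ < 2 := by
  rw [Complex.norm_exp]
  have h2 : Real.exp x.re < Real.exp (Real.log 2) := Real.exp_lt_exp.2 h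
  rwa [Real.exp_log (by norm_num)] at h2

theorem tm_ana (η : ℝ) {f : ℂ → ℂ} {z : ℂ} (hf : AnalyticAt ℂ f z) :
    AnalyticAt ℂ (fun w => tm η (Complex.exp (f w))) z := by
  unfold tm
  exact analyticAt_const.mul ((hf.cexp.cexp).sub analyticAt_const)

/-- `ζ = exp (τ z)`; `U₁ = {z ∈ U | ‖exp (-τ z)‖ < 2}`, `U₂ = {z ∈ U | ‖exp (τ z)‖ < 2}`; on each component of
`U₁` (resp. `U₂`) there is a point with both norms `< 2`; `Glob` of the first tube for
`(A (a z) (exp (-τ z)), tm η (exp (τ z)))`, of the second for `(B (a z) (exp (τ z)), tm η (exp (-τ z)))`;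
on the overlap `agree`. -/
theorem glob_glued (P : Pts S n) (ρ : R →ₐ[ℂ] S) {δ L δ' L' : ℝ} {G₁ G₂ : Germ n δ L}
    {G : Germ n δ' L'} (H : Glued G₁ G₂ G) (h₁ : Glob P ρ δ (G₁.g ℂ)) (h₂ : Glob P ρ δ (G₂.g ℂ)) :
    Glob P ρ δ' (G.g ℂ) := by
  intro U hU hc a τ ha hτ haδ hz
  obtain ⟨z₀, hz₀, hz₀δ⟩ := hz
  have hlog : (1 : ℝ) / 2 < Real.log 2 := by
    have := Real.log_two_gt_d9
    linarith
  have hlog0 : 0 < Real.log 2 := by linarith
  have hsmall : ∀ z, ‖τ z‖ < δ' → -Real.log 2 < (τ z).re ∧ (τ z).re < Real.log 2 := by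
    intro z hz
    have h1 : |(τ z).re| ≤ ‖τ z‖ := Complex.abs_re_le_norm _
    have h2 := H.δ'_le
    have h3 := abs_le.1 h1
    constructor <;> linarith
  have hre : ContinuousOn (fun z => (τ z).re) U := by
    intro z hz
    exact (Complex.continuous_re.continuousAt.comp (hτ z hz).continuousAt).continuousWithinAt
  obtain ⟨γ, B, hγ, hP⟩ := Pool.Agent.NTGlob.glue_half (R := R) hU hc hre hlog0 hz₀
    (hsmall z₀ hz₀δ).1 (hsmall z₀ hz₀δ).2
    (fun z => (P.pt (H.A (a z) (Complex.exp (-τ z)) +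
      G₁.g ℂ (H.A (a z) (Complex.exp (-τ z))) (tm H.η (Complex.exp (τ z))))).comp ρ)
    (by
      intro V hV hVc hVU hVre hVx
      obtain ⟨x, hx, hxre⟩ := hVx
      have hneg : ∀ z ∈ V, ‖Complex.exp (-τ z)‖ < 2 := by
        intro z hz
        refine norm_exp_lt_two ?_
        rw [Complex.neg_re]
        have := hVre z hz
        linarith
      obtain ⟨γ, B, h3, h4⟩ := h₁ V hV hVc (fun z => H.A (a z) (Complex.exp (-τ z)))
        (fun z => tm H.η (Complex.exp (τ z)))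
        (fun z hz => H.A_ana a (fun z => Complex.exp (-τ z)) z (ha z (hVU hz))
          ((hτ z (hVU hz)).neg.cexp) (haδ z (hVU hz)) (hneg z hz))
        (fun z hz => tm_ana H.η (hτ z (hVU hz)))
        (fun z hz => H.A_lt _ _ (haδ z (hVU hz)).le (hneg z hz))
        ⟨x, hx, H.tm_lt _ (norm_exp_lt_two hxre)⟩
      exact ⟨γ, B, h3, fun z hz hzre => h4 z hz (H.tm_lt _ (norm_exp_lt_two hzre))⟩)
    (by
      intro V hV hVc hVU hVre hVx
      obtain ⟨x, hx, hxre⟩ := hVx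
      have hpos : ∀ z ∈ V, ‖Complex.exp (τ z)‖ < 2 := fun z hz => norm_exp_lt_two (hVre z hz)
      obtain ⟨γ, B, h3, h4⟩ := h₂ V hV hVc (fun z => H.B (a z) (Complex.exp (τ z)))
        (fun z => tm H.η (Complex.exp (-τ z)))
        (fun z hz => H.B_ana a (fun z => Complex.exp (τ z)) z (ha z (hVU hz))
          ((hτ z (hVU hz)).cexp) (haδ z (hVU hz)) (hpos z hz))
        (fun z hz => tm_ana H.η (hτ z (hVU hz)).neg)
        (fun z hz => H.B_lt _ _ (haδ z (hVU hz)).le (hpos z hz))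
        ⟨x, hx, H.tm_lt _ (norm_exp_lt_two (by rw [Complex.neg_re]; linarith))⟩
      refine ⟨γ, B, h3, fun z hz hzre => ?_⟩
      have h5 : ‖Complex.exp (-τ z)‖ < 2 := norm_exp_lt_two (by rw [Complex.neg_re]; linarith)
      obtain ⟨h6, h7⟩ := h4 z hz (H.tm_lt _ h5)
      refine ⟨h6, ?_⟩
      rw [h7, H.agree (a z) (Complex.exp (τ z)) (Complex.exp (-τ z)) (haδ z (hVU hz)).le
        (hpos z hz) h5 (by rw [← Complex.exp_add, add_neg_cancel, Complex.exp_zero])])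
  refine ⟨γ, B, hγ, fun z hz hzδ => ?_⟩
  obtain ⟨h5, h6⟩ := hP z hz (hsmall z hzδ).1 (hsmall z hzδ).2
  refine ⟨h5, ?_⟩
  rw [h6, H.new (a z) (τ z) (haδ z hz).le hzδ.le]

end Pool.Agent.NF
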