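import Pool.Agent.Lib_MP_1209e6_nf.Trace
import Pool.Agent.Lib_MP_1209e6_nt.Stab

/-! PIECE STAB (helper41): stability of the ideal of the glued curve. -/

set_option autoImplicit false

open Filter Topology Pool.Agent.CampanaFlow

namespace Pool.Agent.NF

variable {S R : Type} [CommRing S] [Algebra ℂ S] [CommRing R] [Algebra ℂ R] {n : ℕ}

/-- the ideal of functions vanishing near `0` along a family of points -/
def ssIdeal (q : ℂ → S →ₐ[ℂ] ℂ) : Ideal S where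
  carrier := {f | ∀ᶠ w in 𝓝 (0 : ℂ), q w f = 0}
  add_mem' := fun {f g} hf hg => by
    have hf' : ∀ᶠ w in 𝓝 (0 : ℂ), q w f = 0 := hf
    have hg' : ∀ᶠ w in 𝓝 (0 : ℂ), q w g = 0 := hg
    show ∀ᶠ w in 𝓝 (0 : ℂ), q w (f + g) = 0
    filter_upwards [hf', hg'] with w h1 h2
    rw [map_add, h1, h2, add_zero]
  zero_mem' := Eventually.of_forall fun w => map_zero (q w)
  smul_mem' := fun c f hf => by
    have hf' : ∀ᶠ w in 𝓝 (0 : ℂ), q w f = 0 := hf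
    show ∀ᶠ w in 𝓝 (0 : ℂ), q w (c * f) = 0
    filter_upwards [hf'] with w h1
    rw [map_mul, h1, mul_zero]

theorem mem_ssIdeal (q : ℂ → S →ₐ[ℂ] ℂ) (f : S) :
    f ∈ ssIdeal q ↔ ∀ᶠ w in 𝓝 (0 : ℂ), q w f = 0 := Iff.rfl

theorem ssIdeal_prime (q : ℂ → S →ₐ[ℂ] ℂ) (hq : ∀ f, AnalyticAt ℂ (fun w => q w f) 0) :
    (ssIdeal q).IsPrime := by
  refine ⟨?_, ?_⟩
  · intro h
    have h1 : (1 : S) ∈ ssIdeal q := by rw [h]; trivial
    obtain ⟨w, hw⟩ := ((mem_ssIdeal q 1).1 h1).exists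
    rw [map_one] at hw
    exact one_ne_zero hw
  · intro f g hfg
    rw [mem_ssIdeal] at hfg
    rcases (hq f).eventually_eq_zero_or_eventually_ne_zero with hf | hf
    · exact Or.inl hf
    rcases (hq g).eventually_eq_zero_or_eventually_ne_zero with hg | hg
    · exact Or.inr hg
    exfalso
    have h1 : ∀ᶠ w in 𝓝[≠] (0 : ℂ), q w (f * g) = 0 := hfg.filter_mono nhdsWithin_le_nhds
    obtain ⟨w, hw1, hw2, hw3⟩ := (h1.and (hf.and hg)).exists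
    rw [map_mul] at hw1
    exact mul_ne_zero hw2 hw3 hw1

/-- the family `t ↦ P.pt (a + G.g ℂ a t)` is analytic on `‖t‖ < δ` -/
theorem ss_ana (P : Pts S n) {δ L : ℝ} (G : Germ n δ L)
    (hsm : ∀ (a : Fin n → ℂ) (t : ℂ), ‖a‖ ≤ δ → ‖t‖ ≤ δ → ‖a + G.g ℂ a t‖ < P.δ)
    (a : ℂ → Fin n → ℂ) (τ : ℂ → ℂ) (z : ℂ) (ha : AnalyticAt ℂ a z) (hτ : AnalyticAt ℂ τ z)
    (h1 : ‖a z‖ < δ) (h2 : ‖τ z‖ < δ) (f : S) :
    AnalyticAt ℂ (fun w => P.pt (a w + G.g ℂ (a w) (τ w)) f) z :=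
  P.ana (fun w => a w + G.g ℂ (a w) (τ w)) z (ha.add (G.ana a τ z ha hτ h1 h2))
    (hsm _ _ h1.le h2.le) f

/-- `trace_side` and `stable_of_trace` with `I v = {f | P.pt (A v + g (A v, t)) f = 0 for t near 0}`, `v = exp (-w)`
near `1`. -/
theorem stab_side [IsNoetherianRing S] (P : Pts S n) (ρ : R →ₐ[ℂ] S)
    (hint : ∀ f : S, ∃ F : Polynomial R, F.Monic ∧ F.eval₂ (ρ : R →+* S) f = 0)
    {Ds : Set (Derivation ℂ S S)} {δ L : ℝ} (G : Germ n δ L) (hT : Tube P ρ Ds G)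
    (η : ℝ) (hη : 0 < η) (htm : ∀ x : ℂ, ‖x‖ < 2 → ‖tm η x‖ < δ)
    (A : ℂ → Fin n → ℂ) (hA : ∀ v, ‖v‖ < 2 → AnalyticAt ℂ A v) (hAlt : ∀ v, ‖v‖ < 2 → ‖A v‖ < δ)
    (D : Derivation ℂ S S) (hD : D ∈ Ds) (f : S)
    (hf : ∀ᶠ w in 𝓝 (0 : ℂ), P.pt (A (Complex.exp (-w)) +
      G.g ℂ (A (Complex.exp (-w))) (tm η (Complex.exp w))) f = 0) :
    ∀ᶠ w in 𝓝 (0 : ℂ), P.pt (A (Complex.exp (-w)) +
      G.g ℂ (A (Complex.exp (-w))) (tm η (Complex.exp w))) (D f) = 0 := by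
  set q : ℂ → S →ₐ[ℂ] ℂ := fun w => P.pt (A (Complex.exp (-w)) +
      G.g ℂ (A (Complex.exp (-w))) (tm η (Complex.exp w))) with hq
  have h1 : ‖Complex.exp (-(0 : ℂ))‖ < 2 := by
    rw [neg_zero, Complex.exp_zero, norm_one]
    norm_num
  have h1' : ‖Complex.exp (0 : ℂ)‖ < 2 := by
    rw [Complex.exp_zero, norm_one]
    norm_num
  have he : AnalyticAt ℂ (fun w : ℂ => Complex.exp (-w)) 0 :=
    (analyticAt_cexp).comp_of_eq analyticAt_id.neg rfl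
  have hAe : AnalyticAt ℂ (fun w : ℂ => A (Complex.exp (-w))) 0 :=
    (hA _ h1).comp_of_eq he rfl
  have htma : ∀ x : ℂ, AnalyticAt ℂ (fun w : ℂ => tm η w) x := by
    intro x
    unfold tm
    exact analyticAt_const.mul (analyticAt_cexp.sub analyticAt_const)
  have hτe : AnalyticAt ℂ (fun w : ℂ => tm η (Complex.exp w)) 0 :=
    (htma _).comp_of_eq analyticAt_cexp rfl
  have hqa : ∀ f, AnalyticAt ℂ (fun w => q w f) 0 := fun f =>
    ss_ana P G hT.small (fun w => A (Complex.exp (-w))) (fun w => tm η (Complex.exp w)) 0 hAe hτe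
      (hAlt _ h1) (htm _ h1') f
  -- the ideals of the family
  let V : Type := {v : ℂ // ‖v‖ < 2}
  let I : V → Ideal S := fun v => ssIdeal (fun t => P.pt (A v + G.g ℂ (A v) t))
  have hI : ∀ v : V, ∀ g ∈ I v, D g ∈ I v := fun v g hg =>
    hT.stab D hD (A v) (hAlt v v.2) g hg
  refine stable_of_trace (ρ : R →+* S) D
    (incomparable_of_integral (ρ : R →+* S) fun g => hint g) (J := ⨅ v, I v) (P := ssIdeal q)
    (ssIdeal_prime q hqa) (iInf_stable D I hI) ?_ ?_ f hf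
  · intro g hg
    rw [Ideal.mem_iInf] at hg
    have hall : ∀ v : ℂ, ‖v‖ < 2 → ∀ t : ℂ, ‖t‖ < δ → P.pt (A v + G.g ℂ (A v) t) g = 0 := by
      intro v hv t ht
      have ha : AnalyticOnNhd ℂ (fun t => P.pt (A v + G.g ℂ (A v) t) g) (Metric.ball 0 δ) := by
        intro t ht
        exact ss_ana P G hT.small (fun _ => A v) (fun t => t) t analyticAt_const analyticAt_id
          (hAlt v hv) (mem_ball_zero_iff.1 ht) g
      have h2 := ha.eqOn_zero_of_preconnected_of_eventuallyEq_zero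
        (convex_ball (0 : ℂ) δ).isPreconnected (Metric.mem_ball_self hT.pos)
        (show (fun t => P.pt (A v + G.g ℂ (A v) t) g) =ᶠ[𝓝 0] 0 from hg ⟨v, hv⟩)
      exact h2 (mem_ball_zero_iff.2 ht)
    have e1 : ∀ᶠ w in 𝓝 (0 : ℂ), ‖Complex.exp (-w)‖ < 2 :=
      he.continuousAt.norm.eventually_lt_const h1
    have e2 : ∀ᶠ w in 𝓝 (0 : ℂ), ‖Complex.exp w‖ < 2 :=
      Complex.continuous_exp.continuousAt.norm.eventually_lt_const h1'
    show ∀ᶠ w in 𝓝 (0 : ℂ), q w g = 0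
    filter_upwards [e1, e2] with w hw1 hw2
    exact hall _ hw1 _ (htm _ hw2)
  · intro r hr
    have hr' : ∀ᶠ w in 𝓝 (0 : ℂ), q w (ρ r) = 0 := hr
    have h3 := trace_side P ρ G hT.pos hT.small hT.glob η hη htm A hA hAlt r hr'
    rw [Ideal.mem_comap, Ideal.mem_iInf]
    intro v
    exact h3 v v.2

end Pool.Agent.NF
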