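import Pool.Agent.Lib_MP_1209e6_nf.Solve
import Pool.Agent.Lib_MP_1209e6_nf.GlobGlued
import Pool.Agent.Lib_MP_1209e6_nf.StabSide

/-! PIECE GLUETUBE: two tubes give a tube; induction; the dense curve. -/

set_option autoImplicit false

open Filter Topology Pool.Agent.CampanaFlow

namespace Pool.Agent.NF

variable {S R : Type} [CommRing S] [Algebra ℂ S] [CommRing R] [Algebra ℂ R] {n : ℕ}

/-- the constant tube -/
theorem zero_tube (P : Pts S n) (ρ : R →ₐ[ℂ] S) :
    ∃ (δ L : ℝ) (G : Germ n δ L), Tube P ρ ∅ G := by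
  have hlt : ∀ a : Fin n → ℂ, ‖a‖ ≤ P.δ / 2 → ‖a‖ < P.δ := fun a ha => by
    have := P.pos; linarith
  refine ⟨P.δ / 2, 0, ⟨fun E _ _ _ _ _ _ => 0, fun E _ _ _ _ a t _ _ => by simp,
    fun E E' _ _ _ _ _ _ _ _ φ _ a t _ _ i => by simp⟩,
    ⟨by have := P.pos; linarith, fun a t ha _ => ?_, ?_, fun D hD => by simp at hD⟩⟩
  · rw [add_zero]
    exact hlt a ha
  · intro U _ _ a τ ha _ hlt' _
    refine ⟨fun z => (P.pt (a z)).comp ρ, ∅, ⟨fun z _ => by simp, fun f z hz _ => ?_,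
      fun f z hz => ?_⟩, fun z hz _ => ⟨by simp, by simp⟩⟩
    · exact P.ana a z (ha z hz) (hlt _ (hlt' z hz).le) (ρ f)
    · exact (P.ana a z (ha z hz) (hlt _ (hlt' z hz).le) (ρ f)).meromorphicAt

/-- shrinking the radius of a tube -/
theorem Tube.restrict {P : Pts S n} {ρ : R →ₐ[ℂ] S} {Ds : Set (Derivation ℂ S S)} {δ L δ' L' : ℝ}
    {G : Germ n δ L} (h : Tube P ρ Ds G) (hδ : δ' ≤ δ) (hL : L ≤ L') (hpos : 0 < δ') :
    Tube P ρ Ds (G.restrict hδ hL) := by
  refine ⟨hpos, fun a t ha ht => h.small a t (ha.trans hδ) (ht.trans hδ), ?_,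
    fun D hD c hc f hf => h.stab D hD c (hc.trans_le hδ) f hf⟩
  intro U hU hU' a τ ha hτ hlt hz
  obtain ⟨γ, B, hγ, h1⟩ := h.glob U hU hU' a τ ha hτ (fun z hz => (hlt z hz).trans_le hδ)
    (hz.imp fun z hz => ⟨hz.1, hz.2.trans_le hδ⟩)
  exact ⟨γ, B, hγ, fun z hz hz' => h1 z hz (hz'.trans_le hδ)⟩

theorem norm_exp_lt_two' {w : ℂ} (hw : ‖w‖ ≤ 1 / 2) : ‖Complex.exp w‖ < 2 := by
  rw [Complex.norm_exp]
  have h1 : w.re ≤ 1 / 2 := (Complex.re_le_norm w).trans hw
  have h2 : Real.exp w.re ≤ Real.exp (1 / 2) := Real.exp_le_exp.2 h1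
  have h3 : Real.exp (1 / 2) * Real.exp (1 / 2) = Real.exp 1 := by
    rw [← Real.exp_add]; norm_num
  have h4 := Real.exp_one_lt_d9
  have h5 := Real.exp_pos (1 / 2)
  nlinarith

/-- gluing of two tubes: `exists_glued`, `glob_glued`, `stab_side` twice (the second time with `w ↦ -w`). -/
theorem glue_tube [IsNoetherianRing S] (P : Pts S n) (ρ : R →ₐ[ℂ] S)
    (hint : ∀ f : S, ∃ F : Polynomial R, F.Monic ∧ F.eval₂ (ρ : R →+* S) f = 0)
    {D₁ D₂ : Set (Derivation ℂ S S)} {δ₁ L₁ δ₂ L₂ : ℝ} {G₁ : Germ n δ₁ L₁} {G₂ : Germ n δ₂ L₂}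
    (h₁ : Tube P ρ D₁ G₁) (h₂ : Tube P ρ D₂ G₂) :
    ∃ (δ L : ℝ) (G : Germ n δ L), Tube P ρ (D₁ ∪ D₂) G := by
  have hδ : 0 < min δ₁ δ₂ := lt_min h₁.pos h₂.pos
  have k₁ := h₁.restrict (min_le_left δ₁ δ₂) (le_max_left L₁ L₂) hδ
  have k₂ := h₂.restrict (min_le_right δ₁ δ₂) (le_max_right L₁ L₂) hδ
  obtain ⟨δ', L', G, hδ', -, ⟨H⟩⟩ := exists_glued hδ
    (G₁.restrict (min_le_left δ₁ δ₂) (le_max_left L₁ L₂))
    (G₂.restrict (min_le_right δ₁ δ₂) (le_max_right L₁ L₂))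
  refine ⟨δ', L', G, hδ', fun a t ha ht => ?_, glob_glued P ρ H k₁.glob k₂.glob, ?_⟩
  · rw [H.new a t ha ht]
    have h1 : ‖Complex.exp (-t)‖ < 2 := norm_exp_lt_two' (by
      rw [norm_neg]; exact ht.trans H.δ'_le)
    have h2 : ‖Complex.exp t‖ < 2 := norm_exp_lt_two' (ht.trans H.δ'_le)
    exact k₁.small _ _ (H.A_lt a _ ha h1).le (H.tm_lt _ h2).le
  · intro D hD c hc f hf
    have hball : ∀ᶠ w in 𝓝 (0 : ℂ), ‖w‖ ≤ δ' := by
      have := Metric.closedBall_mem_nhds (0 : ℂ) hδ'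
      filter_upwards [this] with w hw using by simpa using hw
    have hneg : Tendsto (fun w : ℂ => -w) (𝓝 0) (𝓝 0) := by
      simpa using (continuous_neg (G := ℂ)).tendsto 0
    rcases hD with hD | hD
    · have key := stab_side P ρ hint _ k₁ H.η H.η_pos H.tm_lt (H.A c)
        (fun v hv => H.A_ana (fun _ => c) (fun v => v) v analyticAt_const analyticAt_id hc hv)
        (fun v hv => H.A_lt c v hc.le hv) D hD f (by
          filter_upwards [hf, hball] with w hw hw'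
          rw [← H.new c w hc.le hw']; exact hw)
      filter_upwards [key, hball] with w hw hw'
      rw [H.new c w hc.le hw']; exact hw
    · have hag : ∀ w : ℂ, ‖w‖ ≤ δ' → c + G.g ℂ c (-w) =
          H.B c (Complex.exp (-w)) + (G₂.restrict (min_le_right δ₁ δ₂) (le_max_right L₁ L₂)).g ℂ
            (H.B c (Complex.exp (-w))) (tm H.η (Complex.exp w)) := by
        intro w hw
        have h1 : ‖Complex.exp (-w)‖ < 2 := norm_exp_lt_two' (by
          rw [norm_neg]; exact hw.trans H.δ'_le)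
        have h2 : ‖Complex.exp w‖ < 2 := norm_exp_lt_two' (hw.trans H.δ'_le)
        have h3 := H.new c (-w) hc.le (by rwa [norm_neg])
        rw [neg_neg] at h3
        rw [h3]
        exact H.agree c _ _ hc.le h1 h2 (by rw [← Complex.exp_add]; simp)
      have key := stab_side P ρ hint _ k₂ H.η H.η_pos H.tm_lt (H.B c)
        (fun v hv => H.B_ana (fun _ => c) (fun v => v) v analyticAt_const analyticAt_id hc hv)
        (fun v hv => H.B_lt c v hc.le hv) D hD f (by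
          filter_upwards [hneg.eventually hf, hball] with w hw hw'
          rw [← hag w hw']; exact hw)
      filter_upwards [hneg.eventually key, hball] with w hw hw'
      have h4 := hag (-w) (by rwa [norm_neg])
      rw [neg_neg] at h4
      rw [h4]
      simpa only [neg_neg] using hw

/-- induction over finitely many tubes -/
theorem all_tube [IsNoetherianRing S] (P : Pts S n) (ρ : R →ₐ[ℂ] S)
    (hint : ∀ f : S, ∃ F : Polynomial R, F.Monic ∧ F.eval₂ (ρ : R →+* S) f = 0)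
    {m : ℕ} (D : Fin m → Derivation ℂ S S)
    (h : ∀ j, ∃ (δ L : ℝ) (G : Germ n δ L), Tube P ρ {D j} G) :
    ∃ (δ L : ℝ) (G : Germ n δ L), Tube P ρ (Set.range D) G := by
  induction m with
  | zero =>
    obtain ⟨δ, L, G, hG⟩ := zero_tube P ρ
    exact ⟨δ, L, G, by rwa [Set.range_eq_empty]⟩
  | succ m ih =>
    obtain ⟨δ₁, L₁, G₁, h1⟩ := ih (fun j => D j.castSucc) (fun j => h j.castSucc)
    obtain ⟨δ₂, L₂, G₂, h2⟩ := h (Fin.last m)
    obtain ⟨δ, L, G, hG⟩ := glue_tube P ρ hint h1 h2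
    refine ⟨δ, L, G, ?_⟩
    convert hG using 1
    ext E
    simp only [Set.mem_range, Set.mem_union, Set.mem_singleton_iff]
    constructor
    · rintro ⟨j, rfl⟩
      induction j using Fin.lastCases with
      | last => exact Or.inr rfl
      | cast j => exact Or.inl ⟨j, rfl⟩
    · rintro (⟨j, rfl⟩ | rfl)
      · exact ⟨_, rfl⟩
      · exact ⟨_, rfl⟩

/-- the dense curve: `Glob` on `U = ℂ` with `a = 0`, `τ = id`; a function vanishing on the curve lies in the
ideal of the germ at `c = 0`, so do all its words; their values at `p = P.pt 0` vanish. -/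
theorem dense_of_tube (P : Pts S n) (ρ : R →ₐ[ℂ] S) (hρ : Function.Injective ρ) {m : ℕ}
    (D : Fin m → Derivation ℂ S S) {δ L : ℝ} {G : Germ n δ L} (hT : Tube P ρ (Set.range D) G)
    (hp : ∀ f : S, f ≠ 0 → ∃ w : List (Fin m), P.p (word D w f) ≠ 0) :
    ∃ (γ : ℂ → R →ₐ[ℂ] ℂ) (B : Set ℂ), IsCurve Set.univ γ B ∧
      ∀ f : R, (∀ z, z ∉ B → γ z f = 0) → f = 0 := by
  have hδ := hT.pos
  obtain ⟨γ, B, hγ, h1⟩ := hT.glob Set.univ isOpen_univ isPreconnected_univ (fun _ => 0)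
    (fun z => z) (fun z _ => analyticAt_const) (fun z _ => analyticAt_id)
    (fun z _ => by simpa using hδ) ⟨0, trivial, by simpa using hδ⟩
  refine ⟨γ, B, hγ, fun f hf => ?_⟩
  by_contra hne
  have hne' : ρ f ≠ 0 := fun h => hne (hρ (by rw [h, map_zero]))
  obtain ⟨l, hl⟩ := hp _ hne'
  have hball : ∀ᶠ w in 𝓝 (0 : ℂ), ‖w‖ < δ := by
    have := Metric.ball_mem_nhds (0 : ℂ) hδ
    filter_upwards [this] with w hw using by simpa using hw
  have hev : ∀ l : List (Fin m), ∀ᶠ w in 𝓝 (0 : ℂ), P.pt (0 + G.g ℂ 0 w) (word D l (ρ f)) = 0 := by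
    intro l
    induction l with
    | nil =>
      filter_upwards [hball] with w hw
      obtain ⟨h2, h3⟩ := h1 w trivial hw
      have h4 := hf w h2
      rw [h3] at h4
      exact h4
    | cons i l ih => exact hT.stab (D i) ⟨i, rfl⟩ 0 (by simpa using hδ) _ ih
  have h5 := (hev l).self_of_nhds
  have h6 : G.g ℂ 0 0 = 0 := by
    have := G.bd ℂ 0 0 (by simpa using hδ.le) (by simpa using hδ.le)
    rw [norm_zero, mul_zero] at this
    exact norm_le_zero_iff.1 this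
  rw [h6, add_zero, P.pt_zero] at h5
  exact hl h5

end Pool.Agent.NF
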