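import Pool.Agent.Lib_MP_1209e6_nf.Core
import Pool.Agent.Lib_MP_1209e6_kc.PairAlg

/-! PIECE LIP: the Lipschitz estimate from naturality (pair algebra of helper36). -/

set_option autoImplicit false

open Filter Topology

namespace Pool.Agent.NF

/-- Pair algebra `E × E` with the norm `max ‖u‖ ‖v‖ + ‖u - v‖ / r`, `r = 2 ‖a - a'‖ / δ`. -/
theorem Germ.lip {n : ℕ} {δ L : ℝ} (G : Germ n δ L) (hδ : 0 < δ) (E : Type) [NormedCommRing E]
    [NormedAlgebra ℂ E] [CompleteSpace E] [NormOneClass E] (a a' : Fin n → E) (t : E)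
    (ha : ‖a‖ ≤ δ / 2) (ha' : ‖a'‖ ≤ δ / 2) (ht : ‖t‖ ≤ δ / 2) :
    ‖G.g E a t - G.g E a' t‖ ≤ 2 * L / δ * ‖t‖ * ‖a - a'‖ := by
  have hd : (0 : ℝ) < δ / 2 := by positivity
  have h2 : 2 * (δ / 2) = δ := by ring
  have hpi : ∀ (F : Type) [NormedCommRing F] (b : Fin n → F), (∀ i, ‖b i‖ ≤ 2 * (δ / 2)) →
      ‖b‖ ≤ δ := by
    intro F _ b hb
    refine (pi_norm_le_iff_of_nonneg hδ.le).2 fun i => ?_
    rw [← h2]; exact hb i
  rcases n.eq_zero_or_pos with hn | hn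
  · subst hn
    have h3 : a = a' := Subsingleton.elim _ _
    rw [h3, sub_self, norm_zero, sub_self, norm_zero, mul_zero]
  have hkey : ∀ k : Fin n, ‖G.g E a t k - G.g E a' t k‖ ≤ L / (δ / 2) * ‖t‖ * ‖a - a'‖ := by
    intro k
    refine Pool.Agent.CampanaB.lip_of_natural (ι := Fin n) (κ := Fin n) hd
      (fun E _ _ _ _ a t k => G.g E a t k) ?_ ?_ E a a' t
      (fun i => (norm_le_pi_norm a i).trans ha) (fun i => (norm_le_pi_norm a' i).trans ha') ht k
    · intro E E' _ _ _ _ _ _ _ _ φ hφ a t h1 h3 k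
      exact (G.nat E E' φ hφ a t (hpi E a h1) (by rw [← h2]; exact h3) k).symm
    · intro E _ _ _ _ a t h1 h3 k
      exact (norm_le_pi_norm _ k).trans (G.bd E a t (hpi E a h1) (by rw [← h2]; exact h3))
  have h5 : L / (δ / 2) = 2 * L / δ := by field_simp
  have hnn : 0 ≤ 2 * L / δ * ‖t‖ * ‖a - a'‖ := by
    have := hkey ⟨0, hn⟩
    rw [h5] at this
    exact (norm_nonneg _).trans this
  refine (pi_norm_le_iff_of_nonneg hnn).2 fun k => ?_
  have := hkey k
  rw [h5] at this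
  exact this

end Pool.Agent.NF
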