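import Pool.Agent.Lib_MP_1209e6_nf.Lip
import Pool.Agent.Lib_MP_1209e6_nt.NewGerm

/-! PIECE SOLVE (helper73, on helper29's Solve0 and helper6's Values): the gluing problem in `W(E)`
and the new germ. -/

set_option autoImplicit false

open Filter Topology

namespace Pool.Agent.NF

open Pool.Agent.NTW (Fam IsGerm Gl solR aV bV YOf gl w2 w2_apply WE eU)

/-- the family of maps of a germ -/
def Germ.fam {n : ℕ} {δ L : ℝ} (G : Germ n δ L) : Fam n := fun E _ _ _ _ => G.g E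

theorem Germ.isGerm {n : ℕ} {δ L : ℝ} (G : Germ n δ L) (hδ : 0 < δ) {L₀ : ℝ} (h1 : L ≤ L₀)
    (h2 : 2 * L / δ ≤ L₀) : IsGerm G.fam (δ / 2) L₀ where
  nat := fun E E' _ _ _ _ _ _ _ _ φ hφ a t ha ht i =>
    (G.nat E E' φ hφ a t (ha.trans (by linarith)) (ht.trans (by linarith)) i).symm
  bd := fun E _ _ _ _ a t ha ht => (G.bd E a t (ha.trans (by linarith))
    (ht.trans (by linarith))).trans (mul_le_mul_of_nonneg_right h1 (norm_nonneg t))
  lip := fun E _ _ _ _ a a' t ha ha' ht => (G.lip hδ E a a' t ha ha' ht).trans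
    (mul_le_mul_of_nonneg_right (mul_le_mul_of_nonneg_right h2 (norm_nonneg t)) (norm_nonneg _))

theorem tm_eq (η : ℝ) (x : ℂ) : NTW.tm (η : ℂ) x = tm η x := by
  unfold NTW.tm tm
  rw [NTW.ex_complex, smul_eq_mul, Algebra.algebraMap_self, RingHom.id_apply]

theorem unit_bd {u v : ℂ} (hu : ‖u‖ < 2) (hv : ‖v‖ < 2) (h : u * v = 1) (k : ℤ) :
    ‖(((⟨u, v, h, by rw [mul_comm]; exact h⟩ : ℂˣ) ^ k : ℂˣ) : ℂ)‖ ≤ w2.w k := by
  rw [w2_apply]
  rcases Int.eq_nat_or_neg k with ⟨m, rfl | rfl⟩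
  · rw [zpow_natCast, Units.val_pow_eq_pow_val, norm_pow, Int.natAbs_natCast]
    exact pow_le_pow_left₀ (norm_nonneg _) hu.le m
  · rw [zpow_neg, zpow_natCast, ← inv_pow, Units.val_pow_eq_pow_val, norm_pow, Int.natAbs_neg,
      Int.natAbs_natCast]
    exact pow_le_pow_left₀ (norm_nonneg _) hv.le m

/-- `W(E) = WE E w` with `w k = 2 ^ |k|`. For `c : Fin n → E` small solve
`r = g₂ (κ - [r]₊, τ₂) - g₁ (κ + [r]₋, τ₁)`, `κ = c - [r]₋ (1)`, `τ₁ = η (exp ζ - exp 1)`,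
`τ₂ = η (exp ζ⁻¹ - exp 1)`; `a = κ + [r]₋`, `b = κ - [r]₊`; natural in `E` by uniqueness;
`g (c, w) = (a + g₁ (a, τ₁)) (ζ = exp w) - c`. -/
theorem exists_glued {n : ℕ} {δ L : ℝ} (hδ : 0 < δ) (G₁ G₂ : Germ n δ L) :
    ∃ (δ' L' : ℝ) (G : Germ n δ' L'), 0 < δ' ∧ 0 ≤ L' ∧ Nonempty (Glued G₁ G₂ G) := by
  obtain ⟨L₀, hL₀, hL1, hL2⟩ : ∃ L₀ : ℝ, 0 ≤ L₀ ∧ L ≤ L₀ ∧ 2 * L / δ ≤ L₀ :=
    ⟨max 0 (max L (2 * L / δ)), le_max_left _ _, (le_max_left _ _).trans (le_max_right _ _),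
      (le_max_right _ _).trans (le_max_right _ _)⟩
  obtain ⟨m, hm0, hm1, hm2⟩ : ∃ m : ℝ, 0 < m ∧ m ≤ 1 ∧ m ≤ δ / 2 :=
    ⟨min 1 (δ / 2), lt_min one_pos (half_pos hδ), min_le_left _ _, min_le_right _ _⟩
  obtain ⟨η, hη0, hη1, hη2⟩ : ∃ η : ℝ, 0 < η ∧ 11 * η ≤ m / 8 ∧ L₀ * (11 * η) ≤ m / 8 := by
    refine ⟨m / (88 * (1 + L₀)), by positivity, ?_, ?_⟩
    · have : 11 * (m / (88 * (1 + L₀))) = (m / 8) / (1 + L₀) := by field_simp; ring
      rw [this]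
      exact div_le_self (by positivity) (by linarith)
    · have : L₀ * (11 * (m / (88 * (1 + L₀)))) = (m / 8) * (L₀ / (1 + L₀)) := by
        field_simp; ring
      rw [this]
      have h3 : L₀ / (1 + L₀) ≤ 1 := by
        rw [div_le_one (by linarith)]
        linarith
      exact (mul_le_mul_of_nonneg_left h3 (by positivity)).trans (by rw [mul_one])
  have hnη : ‖(η : ℂ)‖ = η := by rw [Complex.norm_real, Real.norm_eq_abs, abs_of_pos hη0]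
  have H : Gl G₁.fam G₂.fam (δ / 2) L₀ (η : ℂ) := by
    refine ⟨half_pos hδ, hL₀, G₁.isGerm hδ hL1 hL2, G₂.isGerm hδ hL1 hL2, ?_, ?_, ?_⟩
    · rw [hnη]; linarith
    · rw [hnη]; linarith
    · rw [hnη]; linarith
  obtain ⟨δ', hδ0, hδ1, hδ2⟩ : ∃ δ' : ℝ, 0 < δ' ∧ δ' ≤ δ / 2 / 2 ∧ δ' ≤ 1 / 16 :=
    ⟨min (δ / 2 / 2) (1 / 16), lt_min (by positivity) (by norm_num), min_le_left _ _,
      min_le_right _ _⟩
  obtain ⟨hnat, hbd⟩ := H.nat_bd hδ1 hδ2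
  let G : Germ n δ' (4 * (δ / 2)) :=
    { g := fun E _ _ _ _ => gl G₁.fam G₂.fam (δ / 2) (η : ℂ) E
      bd := fun E _ _ _ _ a t ha ht => hbd E a t ha ht
      nat := fun E E' _ _ _ _ _ _ _ _ φ hφ a t ha ht i => (hnat E E' φ hφ a t ha ht i).symm }
  have hω : ∀ k : ℤ, (2 : ℝ) ^ k.natAbs ≤ w2.w k := fun k => le_of_eq (w2_apply k).symm
  have hr : ∀ c : Fin n → ℂ, ‖c‖ ≤ δ' →
      ‖c‖ + 2 * ‖solR G₁.fam G₂.fam (δ / 2) (η : ℂ) ℂ c‖ ≤ δ / 2 := by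
    intro c hc
    have := (H.solR_eq (hc.trans hδ1)).1
    linarith
  have hcomp : ∀ (c : ℂ → Fin n → ℂ) (z : ℂ), AnalyticAt ℂ c z → ‖c z‖ < δ' →
      (∀ i, AnalyticAt ℂ (fun w => c w i) z) ∧ ∀ i, ∀ᶠ w in 𝓝 z, ‖c w i‖ ≤ δ / 2 / 2 := by
    intro c z hc hcz
    have h1 := analyticAt_pi_iff.1 hc
    refine ⟨h1, fun i => ?_⟩
    have h2 : ‖c z i‖ < δ / 2 / 2 := lt_of_le_of_lt (norm_le_pi_norm _ i) (hcz.trans_le hδ1)
    filter_upwards [(h1 i).continuousAt.norm.eventually (gt_mem_nhds h2)] with w hw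
    exact hw.le
  refine ⟨δ', 4 * (δ / 2), G, hδ0, by positivity, ⟨?_⟩⟩
  refine
    { η := η
      η_pos := hη0
      δ'_le := hδ2.trans (by norm_num)
      tm_lt := ?_
      A := fun c v => aV v c (solR G₁.fam G₂.fam (δ / 2) (η : ℂ) ℂ c)
      B := fun c u => bV u c (solR G₁.fam G₂.fam (δ / 2) (η : ℂ) ℂ c)
      A_lt := ?_
      B_lt := ?_
      A_ana := ?_
      B_ana := ?_
      agree := ?_
      new := ?_ }
  · intro x hx
    rw [← tm_eq]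
    refine lt_of_le_of_lt (NTW.norm_tm_le (η : ℂ) x hx.le) ?_
    rw [hnη]
    linarith
  · intro c v hc hv
    refine lt_of_le_of_lt ((pi_norm_le_iff_of_nonneg (by positivity)).2 fun i => ?_)
      (half_lt_self hδ)
    exact (NTW.norm_aV_le NTW.one_le_w2 (NTW.WE.bd_of_norm_le' hv.le) c _ i).trans (hr c hc)
  · intro c u hc hu
    refine lt_of_le_of_lt ((pi_norm_le_iff_of_nonneg (by positivity)).2 fun i => ?_)
      (half_lt_self hδ)
    exact (NTW.norm_bV_le NTW.one_le_w2 (NTW.WE.bd_of_norm_le' hu.le) c _ i).trans (hr c hc)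
  · intro c v z hc hv hcz hvz
    obtain ⟨h1, h2⟩ := hcomp c z hc hcz
    refine analyticAt_pi_iff.2 fun i => ?_
    exact NTW.aV_analytic hω H.natSol h1 hv h2
      ((hv.continuousAt.norm.eventually (gt_mem_nhds hvz)).mono fun w hw => hw.le) i
  · intro c v z hc hv hcz hvz
    obtain ⟨h1, h2⟩ := hcomp c z hc hcz
    refine analyticAt_pi_iff.2 fun i => ?_
    exact NTW.bV_analytic hω H.natSol h1 hv h2
      ((hv.continuousAt.norm.eventually (gt_mem_nhds hvz)).mono fun w hw => hw.le) i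
  · intro c u v hc hu hv huv
    funext i
    have h1 := H.val_YOf_a (hc.trans hδ1) (unit_bd hu hv huv) i
    have h2 := H.val_YOf_b (hc.trans hδ1) (unit_bd hu hv huv) i
    rw [h1] at h2
    rw [← tm_eq, ← tm_eq]
    exact h2
  · intro c w hc hw
    have ht := NTW.WE.eU_weight hω (w := w) (hw.trans (hδ2.trans (by norm_num)))
    funext i
    have h1 := H.val_YOf_a (hc.trans hδ1) ht i
    rw [← NTW.gl_apply, ← NTW.eU_neg, NTW.coe_eU, NTW.coe_eU, NTW.ex_complex,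
      NTW.ex_complex] at h1
    rw [← tm_eq]
    exact h1

end Pool.Agent.NF
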