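import Pool.Agent.Lib_MP_1209e6_nf.Ana
import Pool.Agent.Lib_MP_1209e6_nt.TraceAux

/-! PIECE TRACE (helper72): a function of `R` vanishing on the glued curve vanishes on the first family. -/

set_option autoImplicit false

open Filter Topology Pool.Agent.CampanaFlow

namespace Pool.Agent.NF

variable {S R : Type} [CommRing S] [Algebra ℂ S] [CommRing R] [Algebra ℂ R] {n : ℕ}

/-- `Glob` on `U = {‖exp (-w)‖ < 2}` (a half plane, so convex) with `a w = A (exp (-w))`,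
`τ w = tm η (exp w)`; by the identity theorem `f` vanishes on the curve; at the points `w_k` with
`exp w_k = ζ_k = log (e + t / η) + 2 π i k` one has `tm η ζ_k = t`, so
`s ↦ P.pt (A s + G.g ℂ (A s) t) (ρ f)`, holomorphic on `‖s‖ < 2`, vanishes at `s_k = 1 / ζ_k → 0`. -/
theorem trace_side (P : Pts S n) (ρ : R →ₐ[ℂ] S) {δ L : ℝ} (G : Germ n δ L) (hδ : 0 < δ)
    (hsm : ∀ (a : Fin n → ℂ) (t : ℂ), ‖a‖ ≤ δ → ‖t‖ ≤ δ → ‖a + G.g ℂ a t‖ < P.δ)
    (hG : Glob P ρ δ (G.g ℂ)) (η : ℝ) (hη : 0 < η) (htm : ∀ x : ℂ, ‖x‖ < 2 → ‖tm η x‖ < δ)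
    (A : ℂ → Fin n → ℂ) (hA : ∀ v, ‖v‖ < 2 → AnalyticAt ℂ A v) (hAlt : ∀ v, ‖v‖ < 2 → ‖A v‖ < δ)
    (f : R) (hf : ∀ᶠ w in 𝓝 (0 : ℂ), P.pt (A (Complex.exp (-w)) +
      G.g ℂ (A (Complex.exp (-w))) (tm η (Complex.exp w))) (ρ f) = 0) :
    ∀ v, ‖v‖ < 2 → ∀ᶠ t in 𝓝 (0 : ℂ), P.pt (A v + G.g ℂ (A v) t) (ρ f) = 0 := by
  have hηC : (η : ℂ) ≠ 0 := by exact_mod_cast hη.ne'
  -- the half plane
  obtain ⟨U, hU⟩ : ∃ U : Set ℂ, U = {w : ℂ | ‖Complex.exp (-w)‖ < 2} := ⟨_, rfl⟩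
  have hmem : ∀ w : ℂ, w ∈ U ↔ ‖Complex.exp (-w)‖ < 2 := fun w => by rw [hU]; rfl
  have hUo : IsOpen U := by
    rw [hU]
    exact isOpen_lt (Complex.continuous_exp.comp continuous_neg).norm continuous_const
  have hUeq : U = {w : ℂ | -Real.log 2 < w.re} := by
    ext w
    rw [hmem, Complex.norm_exp, Complex.neg_re]
    show Real.exp (-w.re) < 2 ↔ -Real.log 2 < w.re
    rw [← Real.lt_log_iff_exp_lt (by norm_num : (0 : ℝ) < 2)]
    constructor <;> intro h <;> linarith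
  have hUc : IsPreconnected U := by
    rw [hUeq]
    exact (convex_halfSpace_re_gt _).isPreconnected
  have hexpneg : ∀ z : ℂ, AnalyticAt ℂ (fun w : ℂ => Complex.exp (-w)) z := fun z =>
    analyticAt_id.neg.cexp
  have htm0 : tm η (Complex.exp 0) = 0 := by
    unfold tm
    rw [Complex.exp_zero, sub_self, mul_zero]
  have htmana : ∀ z : ℂ, AnalyticAt ℂ (fun w : ℂ => tm η (Complex.exp w)) z := by
    intro z
    unfold tm
    exact analyticAt_const.mul ((analyticAt_id.cexp.cexp).sub analyticAt_const)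
  have h0U : (0 : ℂ) ∈ U := by
    rw [hmem, neg_zero, Complex.exp_zero, norm_one]
    norm_num
  have h0t : ‖tm η (Complex.exp 0)‖ < δ := by
    rw [htm0, norm_zero]
    exact hδ
  obtain ⟨γ, B, hγ, hval⟩ := hG U hUo hUc (fun w => A (Complex.exp (-w)))
    (fun w => tm η (Complex.exp w))
    (fun z hz => AnalyticAt.fun_comp (hA _ ((hmem z).1 hz)) (hexpneg z))
    (fun z _ => htmana z) (fun z hz => hAlt _ ((hmem z).1 hz)) ⟨0, h0U, h0t⟩
  -- the function vanishes on the curve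
  have h0B : (0 : ℂ) ∉ B := (hval 0 h0U h0t).1
  have hev : ∀ᶠ w in 𝓝 (0 : ℂ), γ w f = 0 := by
    have h2 : ∀ᶠ w in 𝓝 (0 : ℂ), ‖tm η (Complex.exp w)‖ < δ :=
      (htmana 0).continuousAt.norm.eventually_lt_const h0t
    filter_upwards [hf, h2, hUo.mem_nhds h0U] with w hw1 hw2 hw3
    rw [(hval w hw3 hw2).2]
    exact hw1
  have hfreq : ∃ᶠ w in 𝓝[≠] (0 : ℂ), γ w f = 0 :=
    (hev.filter_mono nhdsWithin_le_nhds).frequently
  have hall := Pool.Agent.TubeN.tr_ident hUo hUc hγ f h0U h0B hfreq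
  intro v hv
  have he1 : ∀ᶠ t in 𝓝 (0 : ℂ), Complex.exp 1 + t / (η : ℂ) ≠ 0 := by
    have hc : ContinuousAt (fun t : ℂ => Complex.exp 1 + t / (η : ℂ)) 0 :=
      continuousAt_const.add (continuousAt_id.div_const _)
    refine hc.eventually_ne ?_
    rw [zero_div, add_zero]
    exact Complex.exp_ne_zero 1
  have he2 : ∀ᶠ t in 𝓝 (0 : ℂ), ‖t‖ < δ := by
    refine (continuous_norm.continuousAt).eventually_lt_const ?_
    show ‖(0 : ℂ)‖ < δ
    rw [norm_zero]
    exact hδ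
  filter_upwards [he1, he2] with t ht1 ht2
  obtain ⟨z, hz1, hz2, hz3, hz4⟩ := Pool.Agent.TubeN.tr_zeta hηC ht1 (1 / 2)
  have hana : AnalyticOnNhd ℂ (fun s => P.pt (A s + G.g ℂ (A s) t) (ρ f)) (Metric.ball 0 2) := by
    intro s hs
    have hs' : ‖s‖ < 2 := by simpa using hs
    refine P.ana (fun s => A s + G.g ℂ (A s) t) s ?_ (hsm _ _ (hAlt s hs').le ht2.le) (ρ f)
    exact (hA s hs').add (G.ana A (fun _ => t) s (hA s hs') analyticAt_const (hAlt s hs') ht2)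
  refine Pool.Agent.TubeN.tr_disc (r := 2) (by norm_num) hana (fun k => (z k)⁻¹)
    (fun k => inv_ne_zero (hz2 k)) hz4 (fun k => ?_) v (by simpa using hv)
  -- the zero number `k`
  have hexp : Complex.exp (Complex.log (z k)) = z k := Complex.exp_log (hz2 k)
  have hexp' : Complex.exp (-Complex.log (z k)) = (z k)⁻¹ := by rw [Complex.exp_neg, hexp]
  have hsk : ‖(z k)⁻¹‖ < 2 := by
    rw [norm_inv]
    have := hz1 k
    rw [inv_lt_comm₀ (by linarith) (by norm_num)]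
    linarith
  have hwU : Complex.log (z k) ∈ U := by
    rw [hmem, hexp']
    exact hsk
  have htk : tm η (Complex.exp (Complex.log (z k))) = t := by
    rw [hexp]
    exact hz3 k
  have h5 := hval (Complex.log (z k)) hwU (by
    show ‖tm η (Complex.exp (Complex.log (z k)))‖ < δ
    rw [htk]
    exact ht2)
  have h6 := hall _ hwU h5.1
  rw [h5.2] at h6
  have h7 : P.pt (A (Complex.exp (-Complex.log (z k))) +
      G.g ℂ (A (Complex.exp (-Complex.log (z k)))) (tm η (Complex.exp (Complex.log (z k)))))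
        (ρ f) = 0 := h6
  rw [hexp', htk] at h7
  exact h7

end Pool.Agent.NF
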